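import Pool.Agent.H752.PL.Stubs
import Pool.Agent.H591R3.PHG.Proj
import Pool.Agent.H620R2.Gauge.S

/-!
Task L10: the bound for oracles
-/

set_option autoImplicit false

namespace Pool.Agent.H752.PL

open Pool.Agent.NPC Pool.Agent.H620R2.Gauge Finset H568R2 Pool.Agent.H752.GE Filter
open Pool.Agent.H591R3.PHG.Proj (owr owr_e owr_off)

namespace L10

theorem ber_half : (Pool.Agent.H591R3.PHG.ber (1 / 2) : Bool → ℝ) = unif := by
  funext b
  unfold Pool.Agent.H591R3.PHG.ber unif
  cases b <;> norm_num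

theorem Ex_owr {I J : Type} [Fintype I] [DecidableEq I] [Fintype J] [DecidableEq J]
    (e : J → I) (he : Function.Injective e) (Φ : (I → Bool) → ℝ) :
    Ex unif Φ = Ex unif (fun a : I → Bool => Ex unif (fun z : J → Bool => Φ (owr e a z))) := by
  rw [Pool.Agent.H591R3.PHG.Ex_overwrite e he Φ, ber_half]
  refine congrArg (Ex unif) (funext fun a => ?_)
  refine congrArg (Ex unif) (funext fun z => ?_)
  refine congrArg Φ (funext fun i => ?_)
  unfold owr
  by_cases h : ∃ j, e j = i
  · rw [dif_pos h, dif_pos h]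
  · rw [dif_neg h, dif_neg h]

theorem Ex_curry {X : Type} [Fintype X] [DecidableEq X] (m : ℕ)
    (F : (X → (Fin m → Bool)) → ℝ) :
    Ex unif (fun β : X × Fin m → Bool => F (fun j i => β (j, i))) =
      Ex (un (Fin m → Bool)) F := by
  unfold Ex unif un
  simp only [Finset.prod_const, Finset.card_univ, Fintype.card_prod, Fintype.card_fin,
    Fintype.card_pi, Fintype.card_bool]
  rw [← (Equiv.curry X (Fin m) Bool).sum_comp]
  refine Finset.sum_congr rfl fun β _ => ?_
  have h1 : (1 / 2 : ℝ) ^ (Fintype.card X * m) =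
      (1 / ((2 ^ m : ℕ) : ℝ)) ^ Fintype.card X := by
    rw [mul_comm, pow_mul]
    congr 1
    push_cast
    rw [one_div_pow]
  rw [h1]
  rfl

theorem p1' (h8 : St_p1) (X Y : Type) [Fintype X] [Fintype Y] [dY : DecidableEq Y] (D : Finset Y)
    (y : X → Y) (g : X → (Y → Bool) → Bool)
    (hg : ∀ j z z', (∀ v ∈ D, z v = z' v) → g j z = g j z') :
    Ex unif (fun z : Y → Bool => if ∀ j, g j z = z (y j) then (1 : ℝ) else 0) ≤
      (1 / 2) ^ (univ.image y \ D).card := by
  have h := h8 X Y D y g hg
  have e : dY = fun a b => Classical.propDecidable (a = b) := Subsingleton.elim _ _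
  subst e
  exact h

theorem p2' (h9 : St_p2) (X Y : Type) [Fintype X] [Fintype Y] [Nonempty Y] [dX : DecidableEq X]
    [dY : DecidableEq Y] (D : Finset Y) :
    Ex (un Y) (fun y : X → Y => (1 / 2 : ℝ) ^ (univ.image y \ D).card) ≤
      (1 / 2 + ((D.card : ℝ) + Fintype.card X) / Fintype.card Y) ^ Fintype.card X := by
  have h := h9 X Y D
  have e : dY = fun a b => Classical.propDecidable (a = b) := Subsingleton.elim _ _
  have e' : dX = fun a b => Classical.propDecidable (a = b) := Subsingleton.elim _ _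
  subst e e'
  exact h

theorem idx_inj : Function.Injective idx := by
  intro a b h
  have := congrArg str h
  rwa [str_idx, str_idx] at this

theorem unif_nonneg (b : Bool) : 0 ≤ unif b := by
  unfold unif
  norm_num

theorem sum_unif : ∑ b, unif b = 1 := by
  unfold unif
  simp

theorem ite_iff {p q : Prop} (dp : Decidable p) (dq : Decidable q) (h : p ↔ q) :
    @ite ℝ p dp 1 0 = @ite ℝ q dq 1 0 := if_congr h rfl rfl

end L10

open L10

theorem t_pr (h8 : St_p1) (h9 : St_p2) : St_pr := by
  classical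
  intro n b N hn hb hN U hU G hG
  have hs1 : ∀ (j : Fin (2 ^ n)) (i : Fin (2 * n)),
      idx (false :: (bitsOf n j ++ List.replicate i true)) < N := by
    intro j i
    have h := idx_lt (false :: (bitsOf n j ++ List.replicate i true))
    have hl : (false :: (bitsOf n j ++ List.replicate (i : ℕ) true)).length + 1 ≤ 3 * n + 3 := by
      simp [length_bitsOf]
      have := i.2
      omega
    have h2 : 2 ^ ((false :: (bitsOf n j ++ List.replicate (i : ℕ) true)).length + 1) ≤
        2 ^ (3 * n + 3) := Nat.pow_le_pow_right (by norm_num) hl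
    omega
  have hs2 : ∀ v : Fin (2 * n) → Bool, idx (true :: List.ofFn v) < N := by
    intro v
    have h := idx_lt (true :: List.ofFn v)
    have hl : (true :: List.ofFn v).length + 1 ≤ 3 * n + 3 := by
      simp
      omega
    have h2 : 2 ^ ((true :: List.ofFn v).length + 1) ≤ 2 ^ (3 * n + 3) :=
      Nat.pow_le_pow_right (by norm_num) hl
    omega
  let e1 : Fin (2 ^ n) × Fin (2 * n) → Fin N := fun p =>
    ⟨idx (false :: (bitsOf n p.1 ++ List.replicate p.2 true)), hs1 p.1 p.2⟩
  let e2 : (Fin (2 * n) → Bool) → Fin N := fun v => ⟨idx (true :: List.ofFn v), hs2 v⟩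
  have he1 : Function.Injective e1 := by
    rintro ⟨j, i⟩ ⟨j', i'⟩ h
    have h1 := idx_inj (Fin.mk.inj h)
    have h2 : bitsOf n j ++ List.replicate (i : ℕ) true =
        bitsOf n j' ++ List.replicate (i' : ℕ) true := (List.cons.inj h1).2
    have h3 := List.append_inj h2 (by rw [length_bitsOf, length_bitsOf])
    have h4 : (j : ℕ) = j' := bitsOf_inj j.2 j'.2 h3.1
    have h5 : (i : ℕ) = i' := by
      have := congrArg List.length h3.2
      simpa using this
    exact Prod.ext (Fin.ext h4) (Fin.ext h5)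
  have he2 : Function.Injective e2 := by
    intro v v' h
    have h1 := idx_inj (Fin.mk.inj h)
    exact List.ofFn_injective (List.cons.inj h1).2
  have hdis : ∀ p, ¬ ∃ v, e2 v = e1 p := by
    rintro p ⟨v, h⟩
    have h1 := idx_inj (Fin.mk.inj h)
    have h2 := (List.cons.inj h1).1
    exact absurd h2 (by decide)
  -- the set of the strings asked
  set D : Finset (Fin (2 * n) → Bool) :=
    univ.filter (fun v => ∃ j, true :: List.ofFn v ∈ U j) with hDdef
  have hD : D.card ≤ 2 ^ n * 2 ^ b := by
    calc D.card ≤ (univ.biUnion U).card := by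
          refine Finset.card_le_card_of_injOn (fun v => true :: List.ofFn v) ?_ ?_
          · intro v hv
            rw [Finset.mem_coe, hDdef, Finset.mem_filter] at hv
            obtain ⟨j, hj⟩ := hv.2
            rw [Finset.mem_coe, Finset.mem_biUnion]
            exact ⟨j, Finset.mem_univ _, hj⟩
          · intro v _ v' _ h
            exact List.ofFn_injective (List.cons.inj h).2
      _ ≤ ∑ j, (U j).card := Finset.card_biUnion_le
      _ ≤ ∑ _j : Fin (2 ^ n), 2 ^ b := Finset.sum_le_sum fun j _ => hU j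
      _ = 2 ^ n * 2 ^ b := by simp
  -- the oracle
  have c1 : ∀ (a : Fin N → Bool) (z : (Fin (2 * n) → Bool) → Bool) (v : Fin (2 * n) → Bool),
      orc N (owr e2 a z) (true :: List.ofFn v) = z v := by
    intro a z v
    unfold orc
    rw [dif_pos (hs2 v)]
    exact owr_e he2 a z v
  have c2 : ∀ (σ : Fin N → Bool) (β : Fin (2 ^ n) × Fin (2 * n) → Bool)
      (z : (Fin (2 * n) → Bool) → Bool) (j : Fin (2 ^ n)) (i : Fin (2 * n)),
      orc N (owr e2 (owr e1 σ β) z) (false :: (bitsOf n j ++ List.replicate i true)) =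
        β (j, i) := by
    intro σ β z j i
    unfold orc
    rw [dif_pos (hs1 j i)]
    have h1 : owr e2 (owr e1 σ β) z (e1 (j, i)) = owr e1 σ β (e1 (j, i)) :=
      owr_off _ _ (hdis (j, i))
    rw [owr_e he1] at h1
    exact h1
  have c3 : ∀ (σ : Fin N → Bool) (β : Fin (2 ^ n) × Fin (2 * n) → Bool)
      (z : (Fin (2 * n) → Bool) → Bool) (j : Fin (2 ^ n)),
      (bitsOf n j ∈ HL (orc N (owr e2 (owr e1 σ β) z)) ↔ z (fun i => β (j, i)) = true) := by
    intro σ β z j
    have h1 : (List.range (2 * (bitsOf n j).length)).map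
        (fun i => orc N (owr e2 (owr e1 σ β) z)
          (false :: (bitsOf n j ++ List.replicate i true))) =
        List.ofFn (fun i : Fin (2 * n) => β (j, i)) := by
      apply List.ext_getElem
      · simp [length_bitsOf]
      · intro i h1 h2
        have hi : i < 2 * n := by simpa using h2
        rw [List.getElem_map, List.getElem_range, List.getElem_ofFn]
        exact c2 σ β z j ⟨i, hi⟩
    unfold HL
    rw [Set.mem_setOf_eq, h1, c1]
  -- the functions
  set g : (Fin N → Bool) → (Fin (2 ^ n) × Fin (2 * n) → Bool) → Fin (2 ^ n) →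
      ((Fin (2 * n) → Bool) → Bool) → Bool :=
    fun σ β j z => decide (G j (orc N (owr e2 (owr e1 σ β) z))) with hgdef
  have hint : ∀ (σ : Fin N → Bool) (β : Fin (2 ^ n) × Fin (2 * n) → Bool)
      (z : (Fin (2 * n) → Bool) → Bool),
      (∀ j : Fin (2 ^ n), (G j (orc N (owr e2 (owr e1 σ β) z)) ↔
        bitsOf n j ∈ HL (orc N (owr e2 (owr e1 σ β) z)))) ↔
      ∀ j, g σ β j z = z (fun i => β (j, i)) := by
    intro σ β z
    refine forall_congr' fun j => ?_
    rw [c3, hgdef]
    cases hz : z (fun i => β (j, i)) <;> simp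
  have hloc : ∀ (σ : Fin N → Bool) (β : Fin (2 ^ n) × Fin (2 * n) → Bool) (j : Fin (2 ^ n))
      (z z' : (Fin (2 * n) → Bool) → Bool), (∀ v ∈ D, z v = z' v) → g σ β j z = g σ β j z' := by
    intro σ β j z z' hzz
    have h1 : G j (orc N (owr e2 (owr e1 σ β) z)) ↔ G j (orc N (owr e2 (owr e1 σ β) z')) := by
      apply hG
      intro u hu
      unfold orc
      by_cases hN' : idx u < N
      · rw [dif_pos hN', dif_pos hN']
        by_cases hv : ∃ v, e2 v = ⟨idx u, hN'⟩
        · obtain ⟨v, hv⟩ := hv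
          have hvu : true :: List.ofFn v = u := idx_inj (Fin.mk.inj hv)
          rw [← hv, owr_e he2, owr_e he2]
          apply hzz
          rw [hDdef, Finset.mem_filter]
          exact ⟨Finset.mem_univ _, j, by rw [hvu]; exact hu⟩
        · rw [owr_off _ _ hv, owr_off _ _ hv]
      · rw [dif_neg hN', dif_neg hN']
    simp only [hgdef]
    exact decide_eq_decide.mpr h1
  -- numbers
  have hnum : (1 / 2 + ((D.card : ℝ) + Fintype.card (Fin (2 ^ n))) /
      Fintype.card (Fin (2 * n) → Bool)) ^ Fintype.card (Fin (2 ^ n)) ≤ (3 / 4 : ℝ) ^ (2 ^ n) := by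
    simp only [Fintype.card_pi, Fintype.card_bool, Finset.prod_const, Finset.card_univ,
      Fintype.card_fin]
    push_cast
    have hp : (0 : ℝ) < 2 ^ n := by positivity
    have hDr : (D.card : ℝ) ≤ 2 ^ n * 2 ^ b := by exact_mod_cast hD
    have hb1 : (8 : ℝ) * 2 ^ b ≤ 2 ^ n := by
      have : (2 : ℝ) ^ (b + 3) ≤ 2 ^ n := pow_le_pow_right₀ (by norm_num) hb
      rw [pow_add] at this
      linarith
    have hn8 : (8 : ℝ) ≤ 2 ^ n := by
      have : (2 : ℝ) ^ 3 ≤ 2 ^ n := pow_le_pow_right₀ (by norm_num) (by omega)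
      linarith
    apply pow_le_pow_left₀ (by positivity)
    have h2 : ((D.card : ℝ) + 2 ^ n) / 2 ^ (2 * n) ≤ 1 / 4 := by
      have e2n : (2 : ℝ) ^ (2 * n) = 2 ^ n * 2 ^ n := by rw [two_mul, pow_add]
      rw [div_le_iff₀ (by positivity), e2n]
      nlinarith
    linarith
  have hY : Nonempty (Fin (2 * n) → Bool) := ⟨fun _ => true⟩
  rw [Ex_owr e2 he2, Ex_owr e1 he1]
  calc _ ≤ Ex unif (fun _ : Fin N → Bool => ((3 / 4 : ℝ) ^ (2 ^ n))) := by
        refine Ex_mono L10.unif_nonneg fun σ => ?_
        calc _ ≤ Ex unif (fun β : Fin (2 ^ n) × Fin (2 * n) → Bool =>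
              (fun y : Fin (2 ^ n) → (Fin (2 * n) → Bool) =>
                (1 / 2 : ℝ) ^ (univ.image y \ D).card) (fun j i => β (j, i))) := by
              refine Ex_mono L10.unif_nonneg fun β => ?_
              have h := p1' h8 (Fin (2 ^ n)) (Fin (2 * n) → Bool) D
                (fun j i => β (j, i)) (g σ β) (hloc σ β)
              refine le_trans (le_of_eq ?_) h
              exact congrArg (Ex unif) (funext fun z => L10.ite_iff _ _ (hint σ β z))
          _ = Ex (un (Fin (2 * n) → Bool)) (fun y : Fin (2 ^ n) → (Fin (2 * n) → Bool) =>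
                (1 / 2 : ℝ) ^ (univ.image y \ D).card) :=
              Ex_curry (2 * n) (fun y : Fin (2 ^ n) → (Fin (2 * n) → Bool) =>
                (1 / 2 : ℝ) ^ (univ.image y \ D).card)
          _ ≤ _ := p2' h9 (Fin (2 ^ n)) (Fin (2 * n) → Bool) D
          _ ≤ (3 / 4 : ℝ) ^ (2 ^ n) := hnum
    _ = (3 / 4 : ℝ) ^ (2 ^ n) := Ex_const sum_unif _

end Pool.Agent.H752.PL
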